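import Mathlib
import Pool.Agent.N357.Count

set_option autoImplicit false

/-!
# MP_62a602_co: more than `[3 choose 2]_q` lines, for every `q ≥ 6`

Take a projective plane over a field with `p` elements, remove a point `v`, keep `s` of the `p`
points of each line through `v` (so that a line not through `v` still has two points in most
cases), and break the lines through `v` into pairs. Each point is on at most `p + s - 1` lines, so
there is no `U_{2,p+s}`-minor, and there are at least `p (p - 1) + s + (p + 1) s (s - 1) / 2` lines.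
-/

namespace Pool.Agent.Results.MP_62a602_co.RankThreeAllQ

open Set

/-- `M` is simple: it has no loops and no two-element circuits -/
def IsSimple {α : Type} (M : Matroid α) : Prop :=
  ∀ C, M.IsCircuit C → 3 ≤ C.encard

/-- `N` is isomorphic to the uniform matroid `U_{2,m}`: it has `m` elements and the independent sets
are the sets with at most two elements -/
def IsU2 (m : ℕ) {α : Type} (N : Matroid α) : Prop :=
  N.E.Finite ∧ N.E.ncard = m ∧ ∀ I ⊆ N.E, N.Indep I ↔ I.encard ≤ 2

/-- The class `𝒰(q)`: finite matroids having no minor isomorphic to `U_{2,q+2}`. -/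
def InU (q : ℕ) {α : Type} (M : Matroid α) : Prop :=
  M.Finite ∧ ∀ N : Matroid α, N.IsMinor M → ¬ IsU2 (q + 2) N

/-- The Gaussian binomial coefficient, the ordinary binomial coefficient for `q = 1`. -/
noncomputable def gauss (q r k : ℕ) : ℚ :=
  if q = 1 then (r.choose k : ℚ)
  else ∏ i ∈ Finset.range k, ((q : ℚ) ^ (r - i) - 1) / ((q : ℚ) ^ (i + 1) - 1)

/-- the number of flats of rank `k` -/
noncomputable def numFlats {α : Type} (M : Matroid α) (k : ℕ) : ℕ :=
  {F | M.IsFlat F ∧ M.eRk F = k}.ncard

theorem gauss_three_two {q : ℕ} (hq : 2 ≤ q) : gauss q 3 2 = q ^ 2 + q + 1 := by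
  have h1 : (q : ℚ) - 1 ≠ 0 := by
    have : (2 : ℚ) ≤ q := by exact_mod_cast hq
    intro h
    linarith
  have h2 : (q : ℚ) ^ 2 - 1 ≠ 0 := by
    have h3 : (2 : ℚ) ≤ q := by exact_mod_cast hq
    nlinarith
  rw [gauss, if_neg (by omega), Finset.prod_range_succ, Finset.prod_range_one]
  norm_num
  field_simp
  ring

theorem construction (K : Type) [Field K] [Finite K] (s q : ℕ) (hs : 3 ≤ s) (hs' : s ≤ Nat.card K)
    (hq : Nat.card K + s ≤ q + 2)
    (hcount : q ^ 2 + q + 1 < (Nat.card K - 1) * Nat.card K + s + (Nat.card K + 1) * s.choose 2) :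
    ∃ (α : Type) (M : Matroid α), IsSimple M ∧ M.eRank = 3 ∧ InU q M ∧
      gauss q 3 2 < numFlats M 2 := by
  classical
  obtain ⟨S, -, hS⟩ : ∃ S : Set K, S ⊆ univ ∧ S.ncard = s := by
    apply exists_subset_card_eq
    rw [ncard_univ]
    exact hs'
  refine ⟨_, Pool.Agent.N357.Broken.M S, ?_, ?_, ⟨inferInstance, ?_⟩, ?_⟩
  · intro C hC
    by_contra hlt
    have h1 : C.encard ≤ 2 := by
      rw [not_le] at hlt
      exact Order.le_of_lt_add_one (by rwa [show (2 : ℕ∞) + 1 = 3 from by norm_num])
    apply hC.not_indep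
    exact Pool.Agent.N357.Plane.mat_indep.2 (Or.inl h1)
  · obtain ⟨a, ha, b, hb, hab⟩ := (Set.one_lt_ncard (toFinite S)).1 (by omega : 1 < S.ncard)
    apply Pool.Agent.N357.Plane.mat_rank (a := (some 0, ⟨a, ha⟩)) (b := (some 0, ⟨b, hb⟩))
      (c := (some 1, ⟨a, ha⟩))
    · simpa using hab
    · simp
    · simp
    · rintro _ ⟨f, rfl⟩ h1 h2 -
      have h3 : Pool.Agent.N357.Broken.val f (some 0) = a := h1
      have h4 : Pool.Agent.N357.Broken.val f (some 0) = b := h2
      exact hab (h3.symm.trans h4)
  · intro N hN hU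
    exact Pool.Agent.N357.Broken.no_line_minor (m := q + 2) (by omega) (by omega) hN hU
  · have h1 := Pool.Agent.N357.Broken.many_flats (S := S) (by omega)
    rw [hS] at h1
    rw [gauss_three_two]
    · have h2 : q ^ 2 + q + 1 < numFlats (Pool.Agent.N357.Broken.M S) 2 := lt_of_lt_of_le hcount h1
      exact_mod_cast h2
    · omega

theorem two_mul_choose (n : ℕ) : 2 * (n + 1).choose 2 = (n + 1) * n := by
  induction n with
  | zero => decide
  | succ n ih =>
    rw [Nat.choose_succ_succ' (n + 1) 1, Nat.choose_one_right]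
    linarith

theorem parameters (q : ℕ) (hq : 6 < q) : ∃ p s : ℕ, p.Prime ∧ 3 ≤ s ∧ s ≤ p ∧ p + s ≤ q + 2 ∧
    q ^ 2 + q + 1 < (p - 1) * p + s + (p + 1) * s.choose 2 := by
  by_cases h20 : q < 20
  · interval_cases q
    · exact ⟨5, 4, by norm_num, by decide, by decide, by decide, by decide⟩
    · exact ⟨5, 5, by norm_num, by decide, by decide, by decide, by decide⟩
    · exact ⟨7, 4, by norm_num, by decide, by decide, by decide, by decide⟩
    · exact ⟨7, 5, by norm_num, by decide, by decide, by decide, by decide⟩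
    · exact ⟨7, 6, by norm_num, by decide, by decide, by decide, by decide⟩
    · exact ⟨7, 7, by norm_num, by decide, by decide, by decide, by decide⟩
    · exact ⟨11, 4, by norm_num, by decide, by decide, by decide, by decide⟩
    · exact ⟨11, 5, by norm_num, by decide, by decide, by decide, by decide⟩
    · exact ⟨11, 6, by norm_num, by decide, by decide, by decide, by decide⟩
    · exact ⟨11, 7, by norm_num, by decide, by decide, by decide, by decide⟩
    · exact ⟨11, 8, by norm_num, by decide, by decide, by decide, by decide⟩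
    · exact ⟨11, 9, by norm_num, by decide, by decide, by decide, by decide⟩
    · exact ⟨11, 10, by norm_num, by decide, by decide, by decide, by decide⟩
  · obtain ⟨p, hp, hp1, hp2⟩ := Nat.exists_prime_lt_and_le_two_mul ((q - 2) / 2) (by omega)
    have hpq : p + 2 ≤ q := by omega
    have hp9 : 9 < p := by omega
    have hqp : q ≤ 2 * p + 1 := by omega
    obtain ⟨x, rfl⟩ : ∃ x, p = x + 3 := ⟨p - 3, by omega⟩
    by_cases hcase : 2 * (x + 3) ≤ q + 2
    · refine ⟨x + 3, x + 3, hp, by omega, le_rfl, by omega, ?_⟩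
      have hch := two_mul_choose (x + 2)
      have h1 : x + 3 - 1 = x + 2 := by omega
      rw [h1]
      have h2 : q ^ 2 + q + 1 ≤ (2 * x + 7) ^ 2 + (2 * x + 7) + 1 := by
        have : q ≤ 2 * x + 7 := by omega
        gcongr
      have h3 : 7 ≤ x := by omega
      obtain ⟨z, rfl⟩ : ∃ z, x = z + 7 := ⟨x - 7, by omega⟩
      have h4 : 2 * ((z + 7 + 3 + 1) * (z + 7 + 3).choose 2) =
          (z + 7 + 3 + 1) * ((z + 7 + 3) * (z + 7 + 2)) := by
        rw [← hch]
        ring
      nlinarith [Nat.zero_le z, Nat.zero_le (z ^ 2), Nat.zero_le (z ^ 3)]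
    · obtain ⟨y, hy⟩ : ∃ y, y + 4 + (x + 3) = q + 2 := ⟨q + 2 - (x + 3) - 4, by omega⟩
      refine ⟨x + 3, y + 4, hp, by omega, by omega, by omega, ?_⟩
      have hq' : q = x + y + 5 := by omega
      subst hq'
      have hch := two_mul_choose (y + 3)
      have h1 : x + 3 - 1 = x + 2 := by omega
      rw [h1]
      have h4 : 2 * ((x + 3 + 1) * (y + 4).choose 2) =
          (x + 3 + 1) * ((y + 4) * (y + 3)) := by
        rw [← hch]
        ring
      nlinarith [Nat.zero_le (x * y), Nat.zero_le (x * y ^ 2), Nat.zero_le (y ^ 2),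
        Nat.zero_le x, Nat.zero_le y]

/-- **Negative answer, for every `q ≥ 6`.** For every integer `q ≥ 6` there is a simple matroid of
rank three with no `U_{2,q+2}`-minor whose number of flats of rank two is larger than the Gaussian
binomial coefficient `[3 choose 2]_q = q ^ 2 + q + 1`. -/
theorem result : ∀ q : ℕ, 6 ≤ q → ∃ (α : Type) (M : Matroid α),
    IsSimple M ∧ M.eRank = 3 ∧ InU q M ∧ gauss q 3 2 < numFlats M 2 := by
  intro q hq
  rcases Nat.eq_or_lt_of_le hq with rfl | hq
  · have hcard : Nat.card (GaloisField 2 2) = 4 := by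
      rw [GaloisField.card 2 2 (by norm_num)]
      norm_num
    have : Finite (GaloisField 2 2) := Nat.finite_of_card_ne_zero (by omega)
    apply construction (GaloisField 2 2) 4 6 (by norm_num) (by omega) (by omega)
    rw [hcard]
    decide
  · obtain ⟨p, s, hp, hs, hsp, hpq, hcount⟩ := parameters q hq
    have : Fact p.Prime := ⟨hp⟩
    have hcard : Nat.card (ZMod p) = p := Nat.card_zmod p
    apply construction (ZMod p) s q hs (by omega) (by omega)
    rw [hcard]
    exact hcount

end Pool.Agent.Results.MP_62a602_co.RankThreeAllQ
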